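import Pool.Agent.Helper98_CC.Stmts
import Pool.Agent.Helper83_WRA.LabSum

/-!
CC, module MAIN: the equivalence of Q1 with the congruences.
-/

open scoped BigOperators

noncomputable section

namespace Pool.Agent.Helper90_CC

open Pool.Agent.Helper51_AWC Pool.Agent.Helper79_WRA Pool.Agent.Helper98_CC

theorem intCast_FF {ℓ : ℕ} [hp : Fact ℓ.Prime] {M : Ideal (integralClosure ℤ ℂ)}
    [hM : M.IsMaximal] (hℓ : (ℓ : integralClosure ℤ ℂ) ∈ M) (n : ℤ) :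
    (n : FF M) = 0 ↔ (ℓ : ℤ) ∣ n := by
  have hnt : Nontrivial (integralClosure ℤ ℂ ⧸ M) := Ideal.Quotient.nontrivial_iff.2 hM.ne_top
  have hchar : CharP (integralClosure ℤ ℂ ⧸ M) ℓ := by
    rw [CharP.charP_iff_prime_eq_zero hp.out]
    have := Ideal.Quotient.eq_zero_iff_mem.2 hℓ
    simpa using this
  exact CharP.intCast_eq_zero_iff (FF M) ℓ n

/-- a function on labels that gives the alternating sums -/
def SS (ℓ : ℕ) (M : Ideal (integralClosure ℤ ℂ)) (G : Type) [Group G] [Finite G]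
    (β : G → FF M) : ℤ := asum ℓ M β / Nat.card G

theorem asum_labF {ℓ : ℕ} [Fact ℓ.Prime] (M : Ideal (integralClosure ℤ ℂ)) {G : Type} [Group G]
    [Finite G] (hop : opCore ℓ G = ⊥) {χ : G → ℂ} (hχ : χ ∈ Irr G) :
    asum ℓ M (labF M χ) = (Nat.card G : ℤ) * altSum ℓ M χ :=
  H83.labSum ℓ M G hop χ hχ

theorem SS_labF {ℓ : ℕ} [Fact ℓ.Prime] (M : Ideal (integralClosure ℤ ℂ)) {G : Type} [Group G]
    [Finite G] (hop : opCore ℓ G = ⊥) {χ : G → ℂ} (hχ : χ ∈ Irr G) :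
    SS ℓ M G (labF M χ) = altSum ℓ M χ := by
  unfold SS
  rw [asum_labF M hop hχ]
  apply Int.mul_ediv_cancel_left
  exact_mod_cast Nat.card_pos.ne'

open Classical in
/-- the indicator function of the labels of defect zero -/
def ee (ℓ : ℕ) (M : Ideal (integralClosure ℤ ℂ)) (G : Type) [Group G] [Finite G]
    (β : G → FF M) : ℤ := if ∃ ξ ∈ DZ ℓ M G, β = labF M ξ then 1 else 0

theorem Labs_eq (M : Ideal (integralClosure ℤ ℂ)) (G : Type) [Group G] :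
    Labs M G = labF M '' Irr G := by
  ext β
  constructor
  · rintro ⟨χ, hχ, rfl⟩
    exact ⟨χ, hχ, rfl⟩
  · rintro ⟨χ, hχ, rfl⟩
    exact ⟨χ, hχ, rfl⟩

theorem Labs_finite (M : Ideal (integralClosure ℤ ℂ)) (G : Type) [Group G] [Finite G] :
    (Labs M G).Finite := by
  have := Fintype.ofFinite G
  rw [Labs_eq]
  exact irr_finite'.image _

section

variable {ℓ : ℕ} [hp : Fact ℓ.Prime] {M : Ideal (integralClosure ℤ ℂ)} [hM : M.IsMaximal]
  (hℓ : (ℓ : integralClosure ℤ ℂ) ∈ M) {G : Type} [Group G] [Finite G] (hop : opCore ℓ G = ⊥)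

include hℓ hop in
theorem sum_DZ (hdzu : DzuStmt) (c : G) :
    ∑ᶠ (χ : G → ℂ) (_ : χ ∈ DZ ℓ M G), labF M χ c =
      ∑ᶠ (β : G → FF M) (_ : β ∈ Labs M G), (ee ℓ M G β : FF M) * β c := by
  classical
  have hinj : Set.InjOn (labF M) (DZ ℓ M G) := by
    intro ξ hξ ξ' hξ' h
    exact hdzu ℓ M hℓ G hop ξ hξ ξ' hξ'.1 h
  have h1 : ∑ᶠ (β : G → FF M) (_ : β ∈ labF M '' DZ ℓ M G), β c =
      ∑ᶠ (χ : G → ℂ) (_ : χ ∈ DZ ℓ M G), labF M χ c :=
    finsum_mem_image (f := fun β : G → FF M => β c) hinj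
  rw [← h1]
  have h2 : ∑ᶠ (β : G → FF M) (_ : β ∈ labF M '' DZ ℓ M G), β c =
      ∑ᶠ (β : G → FF M) (_ : β ∈ labF M '' DZ ℓ M G), (ee ℓ M G β : FF M) * β c := by
    apply finsum_mem_congr rfl
    rintro β ⟨ξ, hξ, rfl⟩
    unfold ee
    rw [if_pos ⟨ξ, hξ, rfl⟩, Int.cast_one, one_mul]
  rw [h2]
  apply finsum_mem_inter_support_eq
  ext β
  constructor
  · rintro ⟨⟨ξ, hξ, rfl⟩, h⟩
    exact ⟨⟨ξ, hξ.1, rfl⟩, h⟩
  · rintro ⟨_, h⟩
    refine ⟨?_, h⟩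
    by_contra hβ
    apply h
    show (ee ℓ M G β : FF M) * β c = 0
    unfold ee
    rw [if_neg, Int.cast_zero, zero_mul]
    rintro ⟨ξ, hξ, rfl⟩
    exact hβ ⟨ξ, hξ, rfl⟩

include hℓ hop in
theorem ee_pos (hdzu : DzuStmt) {χ : G → ℂ} (hχ : χ ∈ Irr G) (hL : LargeDefect ℓ M χ) :
    ee ℓ M G (labF M χ) = 0 := by
  classical
  unfold ee
  rw [if_neg]
  rintro ⟨ξ, hξ, h⟩
  have := hdzu ℓ M hℓ G hop ξ hξ χ hχ h.symm
  rw [this] at hξ
  exact hξ.2 hL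

theorem ee_zero {χ : G → ℂ} (hχ : χ ∈ Irr G) (hL : ¬ LargeDefect ℓ M χ) :
    ee ℓ M G (labF M χ) = 1 := by
  classical
  unfold ee
  rw [if_pos]
  exact ⟨χ, ⟨hχ, hL⟩, rfl⟩

include hℓ hop in
/-- the difference of the two counts -/
theorem diff_eq (hgrd : GredStmt) (hlab : LabIdStmt) (hdzu : DzuStmt) {g : ℕ} (hg : 1 < g)
    (hdvd : ℓ - 1 ∣ 2 * g - 2) (c : G) :
    ∃ n : ℤ, torusSum ℓ c - (commg g c : ℤ) = (cz c : ℤ) * n ∧
      (n : FF M) = ∑ᶠ (β : G → FF M) (_ : β ∈ Labs M G),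
        ((SS ℓ M G β - ee ℓ M G β : ℤ) : FF M) * β c := by
  obtain ⟨n1, h1, h1'⟩ := hlab ℓ M hℓ G hop (SS ℓ M G) (fun χ hχ => SS_labF M hop hχ) c
  obtain ⟨n2, h2, h2'⟩ := hgrd ℓ M hℓ g hg hdvd G c
  rw [if_pos hop, sum_DZ hℓ hop hdzu] at h2'
  refine ⟨n1 - n2, by rw [h1, h2]; ring, ?_⟩
  rw [Int.cast_sub, h1', h2', ← finsum_mem_sub_distrib _ _ (Labs_finite M G)]
  apply finsum_mem_congr rfl
  intro β _
  push_cast
  ring

end

theorem main_ (hgrd : GredStmt) (hind : IndStmt) (hlab : LabIdStmt) (hdz1 : Dz1Stmt)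
    (hcon : ConStmt) (hwcl : WclStmt) (hstep : StepStmt) (hdzu : DzuStmt) :
    Helper98_CC.MainStmt := by
  intro ℓ hp M hM hℓ g hg hdvd
  have hprime : Prime (ℓ : ℤ) := Nat.prime_iff_prime_int.mp hp.out
  constructor
  · intro hQ G _ _ c
    by_cases hop : opCore ℓ G = ⊥
    · obtain ⟨n, hn, hn'⟩ := diff_eq hℓ hop hgrd hlab hdzu hg hdvd c
      have hzero : (n : FF M) = 0 := by
        rw [hn']
        apply finsum_mem_eq_zero_of_forall_eq_zero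
        rintro β ⟨χ, hχ, rfl⟩
        have : SS ℓ M G (labF M χ) - ee ℓ M G (labF M χ) = 0 := by
          rw [SS_labF M hop hχ]
          by_cases hL : LargeDefect ℓ M χ
          · rw [hQ G hop χ hχ hL, ee_pos hℓ hop hdzu hχ hL]
            ring
          · rw [ee_zero hχ hL, hdz1 ℓ M hℓ G hop χ ⟨hχ, hL⟩]
            ring
        rw [this, Int.cast_zero, zero_mul]
      obtain ⟨k, hk⟩ := (intCast_FF hℓ n).mp hzero
      rw [hn, hk]
      refine ⟨k, ?_⟩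
      push_cast
      ring
    · obtain ⟨n2, h2, h2'⟩ := hgrd ℓ M hℓ g hg hdvd G c
      rw [if_neg hop] at h2'
      obtain ⟨k, hk⟩ := (intCast_FF hℓ n2).mp h2'
      rw [hcon ℓ G hop c, h2, hk]
      refine ⟨-k, ?_⟩
      push_cast
      ring
  · intro hC
    -- the first step
    have h1 : ∀ (G : Type) [Group G] [Finite G], opCore ℓ G = ⊥ → ∀ χ ∈ Irr G,
        LargeDefect ℓ M χ → (ℓ : ℤ) ∣ altSum ℓ M χ := by
      intro G _ _ hop χ hχ hL
      have hz : ∀ c : G, ∑ᶠ (β : G → FF M) (_ : β ∈ Labs M G),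
          ((SS ℓ M G β - ee ℓ M G β : ℤ) : FF M) * β c = 0 := by
        intro c
        obtain ⟨n, hn, hn'⟩ := diff_eq hℓ hop hgrd hlab hdzu hg hdvd c
        rw [← hn', intCast_FF hℓ]
        obtain ⟨k, hk⟩ := hC G c
        have hcz : (cz c : ℤ) ≠ 0 := by
          unfold cz
          exact_mod_cast Nat.card_pos.ne'
        refine ⟨k, ?_⟩
        have h2 : (cz c : ℤ) * n = (cz c : ℤ) * ((ℓ : ℤ) * k) := by
          rw [← hn, hk]
          push_cast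
          ring
        exact mul_left_cancel₀ hcz h2
      have h3 := hind M G (fun β => ((SS ℓ M G β - ee ℓ M G β : ℤ) : FF M)) hz (labF M χ)
        ⟨χ, hχ, rfl⟩
      rw [intCast_FF hℓ, SS_labF M hop hχ, ee_pos hℓ hop hdzu hχ hL, sub_zero] at h3
      exact h3
    -- descent
    have h2 : ∀ v : ℕ, 1 ≤ v → ∀ (G : Type) [Group G] [Finite G], opCore ℓ G = ⊥ →
        ∀ χ ∈ Irr G, LargeDefect ℓ M χ → (ℓ : ℤ) ^ v ∣ altSum ℓ M χ := by
      intro v hv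
      induction v, hv using Nat.le_induction with
      | base =>
        intro G _ _ hop χ hχ hL
        rw [pow_one]
        exact h1 G hop χ hχ hL
      | succ v hv ih =>
        intro G _ _ hop χ hχ hL
        obtain ⟨⟨s', hs', hs'2⟩, χ', hO, hL', hop'⟩ := hstep ℓ M hℓ G hop χ hχ hL
        have hw := hwcl ℓ M hℓ G hop χ hχ hL χ' hO (altSum ℓ M χ) s' (asum_labF M hop hχ) hs'
        have hi := ih G hop χ hχ hL
        have hi' : (ℓ : ℤ) ^ v ∣ s' := by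
          rcases hs'2 with h | ⟨χ₂, hχ₂, hL₂, h⟩
          · rw [h]
            exact dvd_zero _
          · rw [← h]
            exact ih G hop χ₂ hχ₂ hL₂
        have hi'' : (ℓ : ℤ) ^ v ∣ altSum ℓ M χ' := ih (Gam ℓ G) hop' χ' hO.1 hL'
        have hd1 : (ℓ : ℤ) ^ (v + 1) ∣ (ℓ : ℤ) * altSum ℓ M χ' := by
          rw [pow_succ, mul_comm]
          exact mul_dvd_mul_left _ hi''
        have hd2 : (ℓ : ℤ) ^ (v + 1) ∣ (altSum ℓ M χ) ^ ℓ := by
          have h3 : ((ℓ : ℤ) ^ v) ^ ℓ ∣ (altSum ℓ M χ) ^ ℓ := pow_dvd_pow_of_dvd hi ℓ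
          refine dvd_trans ?_ h3
          rw [← pow_mul]
          apply pow_dvd_pow
          have := hp.out.two_le
          nlinarith
        have hd3 : (ℓ : ℤ) ^ (v + 1) ∣ (ℓ : ℤ) ^ 2 * s' := by
          have h3 : (ℓ : ℤ) ^ (v + 1) = (ℓ : ℤ) * (ℓ : ℤ) ^ v := by ring
          rw [h3, pow_two, mul_assoc]
          exact mul_dvd_mul_left _ (hi'.mul_left _)
        have hd4 : (ℓ : ℤ) ^ (v + 1) ∣ ((ℓ : ℤ) ^ 2 - 1) * altSum ℓ M χ := by
          have : ((ℓ : ℤ) ^ 2 - 1) * altSum ℓ M χ =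
              (ℓ : ℤ) * altSum ℓ M χ' - (altSum ℓ M χ) ^ ℓ + (ℓ : ℤ) ^ 2 * s' := by
            rw [hw]
            ring
          rw [this]
          exact dvd_add (dvd_sub hd1 hd2) hd3
        have hcop : IsCoprime ((ℓ : ℤ) ^ (v + 1)) ((ℓ : ℤ) ^ 2 - 1) := by
          apply IsCoprime.pow_left
          exact ⟨ℓ, -1, by ring⟩
        exact hcop.dvd_of_dvd_mul_left hd4
    intro G _ _ hop χ hχ hL
    by_contra hne
    have hlt := fun v : ℕ => h2 (v + 1) (by omega) G hop χ hχ hL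
    obtain ⟨v, hv⟩ : ∃ v : ℕ, (altSum ℓ M χ).natAbs < ℓ ^ (v + 1) := by
      refine ⟨(altSum ℓ M χ).natAbs, ?_⟩
      have h3 : (altSum ℓ M χ).natAbs + 1 < ℓ ^ ((altSum ℓ M χ).natAbs + 1) :=
        Nat.lt_pow_self hp.out.one_lt
      omega
    have h4 : ℓ ^ (v + 1) ∣ (altSum ℓ M χ).natAbs := by
      have := Int.natAbs_dvd_natAbs.mpr (hlt v)
      rwa [Int.natAbs_pow, Int.natAbs_natCast] at this
    have h5 := Nat.le_of_dvd (Int.natAbs_pos.mpr hne) h4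
    omega

end Pool.Agent.Helper90_CC
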